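import Pool.Agent.Lib.MP_2af9b5_pr.Final

namespace Pool.Agent.Results.MP_2af9b5_pr.SameThreshold

open Filter Topology Pool.Agent.Lib.MP_2af9b5_pr

/-- For every `c > 0` and `k = ⌊c log n⌋`, along any way `l` of letting the area `n` tend to
infinity (all reals, all integers, or a sequence), the directed `k`-nearest neighbour graph is
directed connected with probability tending to one if and only if it has no vertex of in-degree
zero with probability tending to one. -/
theorem result (c : ℝ) (hc : 0 < c) (l : Filter ℝ) (hl : l ≤ atTop) :
    Tendsto (fun n : ℝ => prob n (Conn ⌊c * Real.log n⌋₊)) l (𝓝 1) ↔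
      Tendsto (fun n : ℝ => prob n (NoZero ⌊c * Real.log n⌋₊)) l (𝓝 1) :=
  main hc hl

end Pool.Agent.Results.MP_2af9b5_pr.SameThreshold
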